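import Pool.Agent.W307.FK.Stm
import Pool.Agent.W307.SE.Fin
import Pool.Agent.W407.SE.Ratp
import Pool.Agent.W405.SE.GoodP
import Pool.Agent.W612.SE.Seld
import Pool.Agent.W597.SE.SELC

/-! FK-FINH: all the curves with full rational 2-torsion, ordered by height. -/

set_option autoImplicit false

namespace Pool.Agent.W410.FK

open Finset Pool.Agent.W262.RK Pool.Agent.W307.RT Pool.Agent.W307.RS Pool.Agent.W307.SE
open Pool.Agent.W307.FK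

theorem seld : SELD := Pool.Agent.W612.SE.seld_of
  (Pool.Agent.W405.SE.goodp_of Pool.Agent.W407.SE.ratp)

theorem selc : SELC := Pool.Agent.W597.SE.selc

/-- from the short squares to the boxes, uniformly -/
lemma box_uni {g : ℤ × ℤ → ℝ} {A : ℝ} (hA : 0 ≤ A) (h : ∀ (N1 N2 : ℤ) (X : ℕ),
    1 ≤ X → N1.natAbs ≤ X ^ 1 → N2.natAbs ≤ X ^ 1 →
    ∑ t ∈ Icc 1 X ×ˢ Icc 1 X, g (N1 + (t.1 : ℤ), N2 + (t.2 : ℤ)) ≤ A * X ^ 2) {T : ℕ}
    (hT : 1 ≤ T) : ∑ t ∈ Box T, g t ≤ A * (9 * (T : ℝ) ^ 2) := by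
  have h1 := h (-(T : ℤ) - 1) (-(T : ℤ) - 1) (2 * T + 1) (by omega) (by rw [pow_one]; omega)
    (by rw [pow_one]; omega)
  have h2 : ∑ t ∈ Box T, g t =
      ∑ t ∈ Icc 1 (2 * T + 1) ×ˢ Icc 1 (2 * T + 1), g (-(T : ℤ) - 1 + (t.1 : ℤ),
        -(T : ℤ) - 1 + (t.2 : ℤ)) := by
    symm
    apply sum_bij (fun (t : ℕ × ℕ) _ => ((-(T : ℤ) - 1 + (t.1 : ℤ), -(T : ℤ) - 1 + (t.2 : ℤ)) :
      ℤ × ℤ))
    · intro t ht
      rw [mem_product, mem_Icc, mem_Icc] at ht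
      rw [mem_Box]
      constructor <;> simp only <;> omega
    · intro t _ t' _ htt
      simp only [Prod.mk.injEq] at htt
      ext <;> omega
    · intro t ht
      rw [mem_Box] at ht
      refine ⟨((t.1 + T + 1).toNat, (t.2 + T + 1).toNat), ?_, ?_⟩
      · rw [mem_product, mem_Icc, mem_Icc]
        simp only
        omega
      · ext <;> simp only <;> omega
    · intro t _
      rfl
  rw [h2]
  refine h1.trans (mul_le_mul_of_nonneg_left ?_ hA)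
  have h4 : ((2 * T + 1 : ℕ) : ℝ) ≤ 3 * T := by
    have : 2 * T + 1 ≤ 3 * T := by omega
    exact_mod_cast this
  calc ((2 * T + 1 : ℕ) : ℝ) ^ 2 ≤ (3 * T) ^ 2 := pow_le_pow_left₀ (by positivity) h4 2
    _ = 9 * (T : ℝ) ^ 2 := by ring

open Classical in
/-- the square of the order of the 2-Selmer group of `y² = x (x - a) (x - b)` -/
noncomputable def G2 (t : ℤ × ℤ) : ℝ :=
  if t.1 ≠ 0 ∧ t.2 ≠ 0 ∧ t.1 ≠ t.2 then ((Sel t.1 t.2).ncard : ℝ) ^ 2 else 0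

lemma G2_nonneg (t : ℤ × ℤ) : 0 ≤ G2 t := by
  unfold G2
  split_ifs
  · positivity
  · exact le_rfl

lemma SS_nonneg (D : ℤ) (t : ℤ × ℤ) : 0 ≤ SS D t := by
  unfold SS
  split_ifs
  · positivity
  · exact le_rfl

lemma box_G2 (h1 : AVGN) (h2 : SOM) :
    ∃ C : ℝ, 0 ≤ C ∧ ∀ T : ℕ, 1 ≤ T → ∑ t ∈ Box T, G2 t ≤ C * (T : ℝ) ^ 2 := by
  classical
  obtain ⟨C1, hC1, h1⟩ := h1 1
  obtain ⟨C2, hC2, h2⟩ := h2
  refine ⟨9 * C1 * C2, by positivity, fun T hT => ?_⟩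
  -- decomposition with respect to the greatest common divisor
  set S := (Box T).filter fun t : ℤ × ℤ => t.1 ≠ 0 ∧ t.2 ≠ 0 ∧ t.1 ≠ t.2 with hS
  have e1 : ∑ t ∈ Box T, G2 t = ∑ t ∈ S, G2 t := by
    symm
    apply sum_subset (filter_subset _ _)
    intro t ht ht2
    unfold G2
    rw [if_neg]
    intro h
    exact ht2 (mem_filter.2 ⟨ht, h⟩)
  let F : ℤ × ℤ → (Σ _ : ℕ, ℤ × ℤ) := fun t =>
    ⟨Int.gcd t.1 t.2, (t.1 / (Int.gcd t.1 t.2 : ℤ), t.2 / (Int.gcd t.1 t.2 : ℤ))⟩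
  have hdiv : ∀ t : ℤ × ℤ, (Int.gcd t.1 t.2 : ℤ) * (t.1 / (Int.gcd t.1 t.2 : ℤ)) = t.1 ∧
      (Int.gcd t.1 t.2 : ℤ) * (t.2 / (Int.gcd t.1 t.2 : ℤ)) = t.2 := fun t =>
    ⟨Int.mul_ediv_cancel' (Int.gcd_dvd_left _ _), Int.mul_ediv_cancel' (Int.gcd_dvd_right _ _)⟩
  have hinj : Set.InjOn F S := by
    intro t _ t' _ h
    have g1 : Int.gcd t.1 t.2 = Int.gcd t'.1 t'.2 := congrArg Sigma.fst h
    have g2 : (t.1 / (Int.gcd t.1 t.2 : ℤ), t.2 / (Int.gcd t.1 t.2 : ℤ)) =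
        (t'.1 / (Int.gcd t'.1 t'.2 : ℤ), t'.2 / (Int.gcd t'.1 t'.2 : ℤ)) :=
      congrArg (fun x : (Σ _ : ℕ, ℤ × ℤ) => x.2) h
    rw [Prod.mk.injEq] at g2
    obtain ⟨a1, a2⟩ := hdiv t
    obtain ⟨b1, b2⟩ := hdiv t'
    ext
    · rw [← a1, ← b1, g2.1, g1]
    · rw [← a2, ← b2, g2.2, g1]
  have hmem : ∀ t ∈ S, F t ∈ (Icc 1 T).sigma (fun g => Box (T / g)) ∧
      G2 t = SS ((F t).1 : ℤ) (F t).2 := by
    intro t ht
    obtain ⟨ht1, t1, t2, t3⟩ := mem_filter.1 ht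
    rw [mem_Box] at ht1
    obtain ⟨a1, a2⟩ := hdiv t
    have hg0 : 0 < Int.gcd t.1 t.2 := Int.gcd_pos_of_ne_zero_left _ t1
    have hgT : Int.gcd t.1 t.2 ≤ T := by
      have : Int.gcd t.1 t.2 ≤ t.1.natAbs :=
        Nat.le_of_dvd (by omega) (Int.natCast_dvd.1 (Int.gcd_dvd_left _ _))
      omega
    have hb : ∀ x y : ℤ, (Int.gcd t.1 t.2 : ℤ) * x = y → y.natAbs ≤ T →
        x.natAbs ≤ T / Int.gcd t.1 t.2 := by
      intro x y hxy hy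
      rw [Nat.le_div_iff_mul_le hg0]
      rw [← hxy, Int.natAbs_mul, Int.natAbs_natCast] at hy
      linarith
    refine ⟨?_, ?_⟩
    · rw [mem_sigma, mem_Icc, mem_Box]
      exact ⟨⟨hg0, hgT⟩, hb _ _ a1 ht1.1, hb _ _ a2 ht1.2⟩
    · unfold G2 SS
      rw [if_pos ⟨t1, t2, t3⟩, if_pos]
      · change _ = ((Sel ((Int.gcd t.1 t.2 : ℤ) * (t.1 / (Int.gcd t.1 t.2 : ℤ)))
          ((Int.gcd t.1 t.2 : ℤ) * (t.2 / (Int.gcd t.1 t.2 : ℤ)))).ncard : ℝ) ^ 2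
        rw [a1, a2]
      · refine ⟨?_, ?_, ?_, ?_⟩
        · exact Int.isCoprime_iff_gcd_eq_one.2 (Int.gcd_ediv_gcd_ediv_gcd hg0)
        · intro h
          apply t1
          change t.1 / (Int.gcd t.1 t.2 : ℤ) = 0 at h
          rw [← a1, h, mul_zero]
        · intro h
          apply t2
          change t.2 / (Int.gcd t.1 t.2 : ℤ) = 0 at h
          rw [← a2, h, mul_zero]
        · intro h
          apply t3
          change t.1 / (Int.gcd t.1 t.2 : ℤ) = t.2 / (Int.gcd t.1 t.2 : ℤ) at h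
          exact a1.symm.trans ((congrArg (fun x => (Int.gcd t.1 t.2 : ℤ) * x) h).trans a2)
  have e2 : ∑ t ∈ S, G2 t ≤
      ∑ x ∈ (Icc 1 T).sigma (fun g => Box (T / g)), SS (x.1 : ℤ) x.2 := by
    calc ∑ t ∈ S, G2 t = ∑ t ∈ S, SS ((F t).1 : ℤ) (F t).2 :=
          sum_congr rfl fun t ht => (hmem t ht).2
      _ = ∑ x ∈ S.image F, SS (x.1 : ℤ) x.2 := by rw [sum_image hinj]
      _ ≤ _ := sum_le_sum_of_subset_of_nonneg (fun x hx => by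
          obtain ⟨t, ht, rfl⟩ := mem_image.1 hx
          exact (hmem t ht).1) fun x _ _ => SS_nonneg _ _
  rw [e1]
  refine e2.trans ?_
  rw [sum_sigma]
  have e3 : ∀ g ∈ Icc 1 T, ∑ s ∈ Box (T / g), SS (g : ℤ) s ≤
      9 * C1 * (T : ℝ) ^ 2 * ((128 : ℝ) ^ g.primeFactors.card / (g : ℝ) ^ 2) := by
    intro g hg
    rw [mem_Icc] at hg
    have hg0 : (0 : ℝ) < g := by exact_mod_cast hg.1
    have h3 := box_uni (g := SS (g : ℤ)) (A := C1 * 128 ^ g.primeFactors.card) (by positivity)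
      (fun N1 N2 X hX b1 b2 => by
        have := h1 (g : ℤ) N1 N2 X (by exact_mod_cast (by omega : g ≠ 0)) hX b1 b2
        rwa [Int.natAbs_natCast] at this) (T := T / g) ((Nat.one_le_div_iff hg.1).2 hg.2)
    refine h3.trans ?_
    have h4 : (((T / g : ℕ) : ℝ)) ^ 2 ≤ ((T : ℝ) / g) ^ 2 :=
      pow_le_pow_left₀ (Nat.cast_nonneg _) Nat.cast_div_le 2
    calc C1 * 128 ^ g.primeFactors.card * (9 * (((T / g : ℕ) : ℝ)) ^ 2)
        ≤ C1 * 128 ^ g.primeFactors.card * (9 * ((T : ℝ) / g) ^ 2) := by gcongr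
      _ = _ := by
        field_simp
  refine (sum_le_sum e3).trans ?_
  rw [← mul_sum]
  calc 9 * C1 * (T : ℝ) ^ 2 * ∑ g ∈ Icc 1 T, (128 : ℝ) ^ g.primeFactors.card / (g : ℝ) ^ 2
      ≤ 9 * C1 * (T : ℝ) ^ 2 * C2 := mul_le_mul_of_nonneg_left (h2 T) (by positivity)
    _ = 9 * C1 * C2 * (T : ℝ) ^ 2 := by ring

/-- the differences of the roots -/
lemma root_bd {A B e1 e2 e3 : ℤ}
    (h : ∀ x : ℤ, x ^ 3 + A * x + B = (x - e1) * (x - e2) * (x - e3)) :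
    (e2 - e1) ^ 2 ≤ -(4 * A) ∧ (e3 - e1) ^ 2 ≤ -(4 * A) := by
  have h0 := h 0
  have h1 := h 1
  have h2 := h (-1)
  have s1 : e1 + e2 + e3 = 0 := by nlinarith
  have s2 : A = e1 * e2 + e1 * e3 + e2 * e3 := by nlinarith
  have s3 : e3 = -(e1 + e2) := by linarith
  rw [s2, s3]
  constructor <;> nlinarith [sq_nonneg (e1 + e2), sq_nonneg e2]

lemma size_bd {A x : ℤ} {H : ℕ} (h : x ^ 2 ≤ -(4 * A)) (hA : 4 * |A| ^ 3 ≤ H) :
    x.natAbs ^ 6 ≤ 16 * H := by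
  have h1 : x ^ 2 ≤ 4 * |A| := by
    have := neg_abs_le A
    linarith
  have h2 : (x ^ 2) ^ 3 ≤ (4 * |A|) ^ 3 := pow_le_pow_left₀ (sq_nonneg x) h1 3
  have h3 : x ^ 6 ≤ 16 * (H : ℤ) := by
    calc x ^ 6 = (x ^ 2) ^ 3 := by ring
      _ ≤ (4 * |A|) ^ 3 := h2
      _ = 16 * (4 * |A| ^ 3) := by ring
      _ ≤ 16 * H := by linarith
  have h4 : ((x.natAbs ^ 6 : ℕ) : ℤ) = x ^ 6 := by
    push_cast
    rw [show (6 : ℕ) = 2 * 3 from rfl, pow_mul, pow_mul, sq_abs]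
  have h5 : ((x.natAbs ^ 6 : ℕ) : ℤ) ≤ ((16 * H : ℕ) : ℤ) := by
    rw [h4]
    push_cast
    exact h3
  exact_mod_cast h5

theorem finh_of (h1 : Pool.Agent.W307.FK.AVGN) (h2 : Pool.Agent.W307.FK.SOM)
    (h3 : Pool.Agent.W307.FK.PARF) (h4 : Pool.Agent.W307.RT.LOW 2 6) :
    Pool.Agent.W307.FK.FINH := by
  classical
  obtain ⟨F, hinj, hF⟩ := h3
  have hmem : ∀ H, ∀ c ∈ Cv 2 H, 4 * c.1 ^ 3 + 27 * c.2 ^ 2 ≠ 0 ∧ 4 * |c.1| ^ 3 ≤ H ∧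
      HasT 2 (Sh c.1 c.2) := by
    intro H c hc
    unfold Cv at hc
    obtain ⟨_, a1, a2, _, _, a3⟩ := mem_filter.1 hc
    exact ⟨a1, a2, a3⟩
  let F' : ℤ × ℤ → ℤ × ℤ := fun c => (((F c).1 : ℤ) * (F c).2.1, ((F c).1 : ℤ) * (F c).2.2)
  have key : ∀ H, ∀ c ∈ Cv 2 H, (SelR c.1 c.2).Finite ∧
      ((SelR c.1 c.2).ncard : ℝ) ^ 2 ≤ G2 (F' c) ∧ (F' c).1.natAbs ^ 6 ≤ 16 * H ∧
        (F' c).2.natAbs ^ 6 ≤ 16 * H := by
    intro H c hc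
    obtain ⟨a1, a2, a3⟩ := hmem H c hc
    obtain ⟨b1, b2, b3, b4, b5, e1, e2, e3, hr, d1, d2⟩ := hF c a1 a3
    have hg : ((F c).1 : ℤ) ≠ 0 := by exact_mod_cast (by omega : (F c).1 ≠ 0)
    have hne1 : (F' c).1 ≠ 0 := mul_ne_zero hg b3
    have hne2 : (F' c).2 ≠ 0 := mul_ne_zero hg b4
    have hne3 : (F' c).1 ≠ (F' c).2 := fun h => b5 (mul_left_cancel₀ hg h)
    have hfin := sel_fin seld hne1 hne2 hne3
    obtain ⟨f1, f2⟩ := selc c.1 c.2 e1 e2 e3 (F' c).1 (F' c).2 1 a1 hr one_ne_zero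
      (by rw [d1, one_pow, mul_one]) (by rw [d2, one_pow, mul_one]) hfin
    obtain ⟨r1, r2⟩ := root_bd hr
    refine ⟨f1, ?_, ?_, ?_⟩
    · unfold G2
      rw [if_pos ⟨hne1, hne2, hne3⟩]
      have : ((SelR c.1 c.2).ncard : ℝ) ≤ ((Sel (F' c).1 (F' c).2).ncard : ℝ) := by
        exact_mod_cast f2
      exact pow_le_pow_left₀ (Nat.cast_nonneg _) this 2
    · rw [d1] at r1
      exact size_bd r1 a2
    · rw [d2] at r2
      exact size_bd r2 a2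
  have hinj' : ∀ H, Set.InjOn F' (Cv 2 H : Set (ℤ × ℤ)) := by
    intro H c hc c' hc' h
    obtain ⟨a1, _, a3⟩ := hmem H c hc
    obtain ⟨a1', _, a3'⟩ := hmem H c' hc'
    obtain ⟨b1, b2, _⟩ := hF c a1 a3
    obtain ⟨b1', b2', _⟩ := hF c' a1' a3'
    apply hinj ⟨a1, a3⟩ ⟨a1', a3'⟩
    have hgcd : ∀ x : ℕ × ℤ × ℤ, IsCoprime x.2.1 x.2.2 →
        Int.gcd ((x.1 : ℤ) * x.2.1) ((x.1 : ℤ) * x.2.2) = x.1 := by
      intro x hx
      rw [Int.gcd_mul_left, Int.isCoprime_iff_gcd_eq_one.1 hx, mul_one, Int.natAbs_natCast]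
    have g1 : (F c).1 = (F c').1 := by
      rw [← hgcd _ b2, ← hgcd _ b2']
      have k1 := congrArg Prod.fst h
      have k2 := congrArg Prod.snd h
      change ((F c).1 : ℤ) * (F c).2.1 = ((F c').1 : ℤ) * (F c').2.1 at k1
      change ((F c).1 : ℤ) * (F c).2.2 = ((F c').1 : ℤ) * (F c').2.2 at k2
      rw [k1, k2]
    have hg : ((F c).1 : ℤ) ≠ 0 := by exact_mod_cast (by omega : (F c).1 ≠ 0)
    have k1 : ((F c).1 : ℤ) * (F c).2.1 = ((F c').1 : ℤ) * (F c').2.1 := congrArg Prod.fst h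
    have k2 : ((F c).1 : ℤ) * (F c).2.2 = ((F c').1 : ℤ) * (F c').2.2 := congrArg Prod.snd h
    rw [← g1] at k1 k2
    exact Prod.ext g1 (Prod.ext (mul_left_cancel₀ hg k1) (mul_left_cancel₀ hg k2))
  obtain ⟨C, hC⟩ := final_gen (by norm_num) h4 16 F'
    (fun c => ((SelR c.1 c.2).ncard : ℝ) ^ 2) G2 G2_nonneg
    (fun H => ⟨hinj' H, fun c hc => ⟨(key H c hc).2.2.1, (key H c hc).2.2.2, (key H c hc).2.1⟩⟩)
    (box_G2 h1 h2)
  exact ⟨C, fun H => ⟨fun c hc => (key H c hc).1, hC H⟩⟩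

end Pool.Agent.W410.FK
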